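import Pool.Agent.H24.FD.P5

/-!
# MP_1f2761, k = 2: row COV (the levels of a block which are not treated by `ONP` are few)
-/

set_option autoImplicit false

open Finset Pool.K2 Pool.FD MeasureTheory

namespace Pool.Agent.H24.FD

namespace COV67

theorem II_le (p I J : ℕ) (hp : 2 ≤ p) : II p J ≤ I ↔ 2 ^ J ≤ p ^ I := by
  unfold II
  exact (Nat.clog_le_iff_le_pow (by omega))

theorem lt_II (p I J : ℕ) (hp : 2 ≤ p) : I < II p J ↔ p ^ I < 2 ^ J := by
  rw [← not_le, II_le p I J hp, not_le]

/-- number of levels in `w` bits -/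
theorem tt_le (p w J : ℕ) (hp : 2 ≤ p) (hw : w ≤ J) :
    ((II p J - II p (J - w) : ℕ) : ℝ) ≤ tm p w := by
  unfold tm
  have hp' : (1 : ℝ) < p := by exact_mod_cast (by omega : 1 < p)
  have hlog : 0 < Real.logb 2 p := Real.logb_pos (by norm_num) hp'
  set a := II p (J - w) with ha
  set A := II p J with hA
  rcases Nat.lt_or_ge a A with h | h
  · obtain ⟨n, hn⟩ : ∃ n, A = a + n + 1 := ⟨A - a - 1, by omega⟩
    have e1 : A - a = n + 1 := by omega
    rw [e1]
    push_cast
    have h1 : p ^ (a + n) < 2 ^ J := (lt_II p (a + n) J hp).mp (by omega)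
    have h2 : 2 ^ (J - w) ≤ p ^ a := (II_le p a (J - w) hp).mp (le_of_eq ha.symm)
    have h3 : p ^ n < 2 ^ w := by
      by_contra hcon
      rw [not_lt] at hcon
      have : 2 ^ (J - w) * 2 ^ w ≤ p ^ a * p ^ n := Nat.mul_le_mul h2 hcon
      rw [← pow_add, ← pow_add, Nat.sub_add_cancel hw] at this
      omega
    have h4 : (n : ℝ) * Real.logb 2 p ≤ w := by
      have h5 : ((p : ℝ) ^ n) < (2 : ℝ) ^ w := by exact_mod_cast h3
      have h6 : Real.logb 2 ((p : ℝ) ^ n) < Real.logb 2 ((2 : ℝ) ^ w) :=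
        Real.logb_lt_logb (by norm_num) (by positivity) h5
      rw [Real.logb_pow, Real.logb_pow, Real.logb_self_eq_one (by norm_num), mul_one] at h6
      exact h6.le
    have h7 : (n : ℝ) ≤ w / Real.logb 2 p := by
      rw [le_div_iff₀ hlog]
      exact h4
    linarith
  · have e1 : A - a = 0 := by omega
    rw [e1]
    push_cast
    positivity

/-- a step of `l` bits has at most `l` levels -/
theorem II_step (p l J : ℕ) (hp : 2 ≤ p) : II p (J + l) ≤ II p J + l := by
  rw [II_le p _ _ hp, pow_add, pow_add]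
  have h1 : 2 ^ J ≤ p ^ II p J := (II_le p _ J hp).mp le_rfl
  exact Nat.mul_le_mul h1 (Nat.pow_le_pow_left hp l)

/-- a level between the two ends is treated -/
theorem cover (p l k u₁ hm J I : ℕ) (hp : 2 ≤ p) (hu : u₁ ≤ k) (hJ : l * k ≤ J)
    (h1 : II p (J - l * k) + hm ≤ I) (h2 : I < II p (J - l * u₁)) :
    ∃ u ∈ Icc u₁ k, ∃ b ∈ Icc hm (hm + l), I = II p (J - l * u) + b := by
  classical
  have hex : ∃ n, u₁ ≤ n ∧ n ≤ k ∧ II p (J - l * n) + hm ≤ I := ⟨k, hu, le_rfl, h1⟩
  obtain ⟨g1, g2, g3⟩ := Nat.find_spec hex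
  have gmin := fun m => @Nat.find_min _ _ hex m
  set u := Nat.find hex with hudef
  have hne : u ≠ u₁ := by
    intro h
    rw [h] at g3
    omega
  obtain ⟨v, hv⟩ : ∃ v, u = v + 1 := ⟨u - 1, by omega⟩
  have h3 := gmin v (by omega)
  have h4 : I < II p (J - l * v) + hm := by
    by_contra hcon
    exact h3 ⟨by omega, by omega, by omega⟩
  have hlu : l * u ≤ J := le_trans (Nat.mul_le_mul_left l g2) hJ
  have h5 : J - l * v = (J - l * u) + l := by
    rw [hv, Nat.mul_succ] at hlu ⊢
    omega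
  have h6 := II_step p l (J - l * u) hp
  rw [← h5] at h6
  refine ⟨u, Finset.mem_Icc.mpr ⟨g1, g2⟩, I - II p (J - l * u),
    Finset.mem_Icc.mpr ⟨by omega, by omega⟩, by omega⟩

end COV67

open COV67

theorem cov : COVStmt := by
  classical
  intro p l k u₁ hm J hp hl hu hJ
  have hp2 : 2 ≤ p := by omega
  have hlu : l * u₁ ≤ J := le_trans (Nat.mul_le_mul_left l hu) hJ
  constructor
  · have hsub : Cv p l k u₁ hm J ⊆ Ico (II p (J - l * k)) (II p J) := by
      intro I hI
      unfold Cv at hI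
      simp only [Finset.mem_filter] at hI
      rw [Finset.mem_Ico]
      exact ⟨(II_le p _ _ hp2).mpr hI.2.1, (lt_II p _ _ hp2).mpr hI.2.2.1⟩
    have hc := Finset.card_le_card hsub
    rw [Nat.card_Ico] at hc
    refine le_trans ?_ (tt_le p (l * k) J hp2 hJ)
    exact_mod_cast hc
  · intro y
    unfold bad
    have hJJ : J - l * k + l * k = J := by omega
    rw [hJJ]
    have hsub : ((range (J + 1)).filter fun I => 2 ^ (J - l * k) ≤ p ^ I ∧ p ^ I < 2 ^ J ∧
        ¬ Sure p I (J - l * k) y) ⊆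
        (Ico (II p (J - l * k)) (II p (J - l * k) + hm) ∪ Ico (II p (J - l * u₁)) (II p J)) ∪
          (Cv p l k u₁ hm J).filter fun I => ¬ Sure p I (J - l * k) y := by
      intro I hI
      simp only [Finset.mem_filter] at hI
      obtain ⟨hr, h1, h2, h3⟩ := hI
      have g1 : II p (J - l * k) ≤ I := (II_le p _ _ hp2).mpr h1
      have g2 : I < II p J := (lt_II p _ _ hp2).mpr h2
      simp only [Finset.mem_union, Finset.mem_Ico, Finset.mem_filter]
      by_cases c1 : I < II p (J - l * k) + hm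
      · exact Or.inl (Or.inl ⟨g1, c1⟩)
      · by_cases c2 : II p (J - l * u₁) ≤ I
        · exact Or.inl (Or.inr ⟨c2, g2⟩)
        · refine Or.inr ⟨?_, h3⟩
          unfold Cv
          simp only [Finset.mem_filter]
          exact ⟨hr, h1, h2, cover p l k u₁ hm J I hp2 hu hJ (by omega) (by omega)⟩
    have hc := Finset.card_le_card hsub
    have hc2 := le_trans hc (Finset.card_union_le _ _)
    have hc3 := le_trans hc2 (Nat.add_le_add_right (Finset.card_union_le _ _) _)
    rw [Nat.card_Ico, Nat.card_Ico] at hc3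
    have hsum : ((((Cv p l k u₁ hm J).filter fun I => ¬ Sure p I (J - l * k) y).card : ℕ) : ℝ) =
        ∑ I ∈ Cv p l k u₁ hm J, (if Sure p I (J - l * k) y then (0 : ℝ) else 1) := by
      rw [Finset.card_filter]
      push_cast
      refine Finset.sum_congr rfl fun I _ => ?_
      split_ifs <;> simp_all
    have hc4 : ((((range (J + 1)).filter fun I => 2 ^ (J - l * k) ≤ p ^ I ∧ p ^ I < 2 ^ J ∧
        ¬ Sure p I (J - l * k) y).card : ℕ) : ℝ) ≤
        (((II p (J - l * k) + hm - II p (J - l * k)) + (II p J - II p (J - l * u₁)) +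
          ((Cv p l k u₁ hm J).filter fun I => ¬ Sure p I (J - l * k) y).card : ℕ) : ℝ) := by
      exact_mod_cast hc3
    refine le_trans hc4 ?_
    rw [Nat.add_sub_cancel_left, Nat.cast_add, Nat.cast_add, hsum]
    have := tt_le p (l * u₁) J hp2 hlu
    linarith

end Pool.Agent.H24.FD
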