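import Pool.Agent.H24.FD.P3

/-!
# MP_1f2761, k = 2: row STP (`c` blocks from a non-exceptional state)
-/

set_option autoImplicit false

open Finset Pool.K2 Pool.FD MeasureTheory

namespace Pool.Agent.H24.FD

namespace STP67

/-- sum over quotients and remainders -/
theorem sum_divmod (A B : ℕ) (hB : 0 < B) (F : ℕ → ℕ → ℝ) :
    ∑ z ∈ range (A * B), F (z / B) (z % B) = ∑ a ∈ range A, ∑ b ∈ range B, F a b := by
  induction A with
  | zero => simp
  | succ A ih =>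
    rw [Nat.succ_mul, Finset.sum_range_add, ih, Finset.sum_range_succ]
    congr 1
    refine Finset.sum_congr rfl fun b hb => ?_
    have hb' : b < B := Finset.mem_range.mp hb
    have h1 : (A * B + b) / B = A := by
      rw [Nat.mul_comm, Nat.mul_add_div hB, Nat.div_eq_of_lt hb', add_zero]
    have h2 : (A * B + b) % B = b := by
      rw [Nat.mul_comm, Nat.mul_add_mod, Nat.mod_eq_of_lt hb']
    rw [h1, h2]

/-- a cyclic shift does not change a sum -/
theorem sum_shift (P : ℕ) (hP : 0 < P) (f : ℕ → ℝ) (d : ℕ) (hd : d < 2) :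
    ∑ z ∈ range P, f ((z + P - d) % P) = ∑ z ∈ range P, f z := by
  obtain ⟨P', rfl⟩ : ∃ P', P = P' + 1 := ⟨P - 1, by omega⟩
  rcases (by omega : d = 0 ∨ d = 1) with rfl | rfl
  · refine Finset.sum_congr rfl fun z hz => ?_
    have hz' : z < P' + 1 := Finset.mem_range.mp hz
    rw [Nat.sub_zero, Nat.add_mod_right, Nat.mod_eq_of_lt hz']
  · rw [Finset.sum_range_succ', Finset.sum_range_succ]
    congr 1
    · refine Finset.sum_congr rfl fun z hz => ?_
      have hz' : z < P' := Finset.mem_range.mp hz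
      have : z + 1 + (P' + 1) - 1 = z + (P' + 1) := by omega
      rw [this, Nat.add_mod_right, Nat.mod_eq_of_lt (by omega)]
    · have : 0 + (P' + 1) - 1 = P' := by omega
      rw [this, Nat.mod_eq_of_lt (by omega)]

theorem gd_nonneg (q g A : ℕ) (hq : 2 ≤ q) : 0 ≤ gd q g A := by
  unfold gd
  split_ifs
  · exact le_rfl
  · have h1 : (1 : ℝ) ≤ (q : ℝ) ^ g := one_le_pow₀ (by exact_mod_cast (by omega : 1 ≤ q))
    have h2 : 1 / (q : ℝ) ^ g ≤ 1 := by
      rw [div_le_one (by positivity)]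
      exact h1
    exact div_nonneg zero_le_one (by linarith)

theorem omK_nonneg (q m g t₁ : ℕ) (κ : ℝ) (wm : ℕ → ℕ → ℝ) (hq : 2 ≤ q) (h : MK q m κ wm)
    (t : ℕ) (z : ℕ × ℕ) : 0 ≤ omK q m g t₁ wm t z :=
  mul_nonneg (Finset.prod_nonneg fun _ _ => h.nonneg _ _) (gd_nonneg q g _ hq)

theorem omW_nonneg (q m g t₁ w G Jt : ℕ) (κ : ℝ) (wm : ℕ → ℕ → ℝ) (hq : 2 ≤ q)
    (h : MK q m κ wm) (J : ℕ) (z : ℕ × ℕ) : 0 ≤ omW q m g t₁ wm w G Jt J z := by
  unfold omW
  split_ifs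
  · exact zero_le_one
  · exact omK_nonneg q m g t₁ κ wm hq h _ _

/-- mean of a block kernel -/
theorem omW_sum (hK : KERStmt) (q m g t₁ w G Jt : ℕ) (κ : ℝ) (wm : ℕ → ℕ → ℝ) (hq : 2 ≤ q)
    (hm : 1 ≤ m) (hg : 1 ≤ g) (hκ : 0 ≤ κ) (h : MK q m κ wm) (J : ℕ)
    (ht : t₁ + g ≤ tt q w J) :
    ∑ a ∈ range (q ^ tt q w J), ∑ b ∈ range (q ^ tt q w J),
      omW q m g t₁ wm w G Jt J (a, b) = ((q : ℝ) ^ tt q w J) ^ 2 := by
  unfold omW
  by_cases hc : Jt < J + G * w
  · simp only [if_pos hc]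
    simp only [Finset.sum_const, Finset.card_range, nsmul_eq_mul, mul_one, Nat.cast_pow]
    ring
  · simp only [if_neg hc]
    obtain ⟨_, h2, _⟩ := hK q m g t₁ (tt q w J) κ wm hq hm hg ht hκ h
    rw [Finset.sum_congr rfl fun a _ => h2 a]
    simp only [Finset.sum_const, Finset.card_range, nsmul_eq_mul, Nat.cast_pow]
    ring

/-- mean of the sum over the four truncated digits -/
theorem omP_sum (q w : ℕ) (om : ℕ → ℕ × ℕ → ℝ) (J : ℕ) (hq : 2 ≤ q) (S : ℝ)
    (h : ∑ a ∈ range (q ^ tt q w J), ∑ b ∈ range (q ^ tt q w J), om J (a, b) = S) :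
    ∑ a ∈ range (q ^ tt q w J), ∑ b ∈ range (q ^ tt q w J), omP q w om J (a, b) = 4 * S := by
  have hP : 0 < q ^ tt q w J := pow_pos (by omega) _
  have key : ∀ d₁ ∈ range 2, ∀ d₂ ∈ range 2,
      ∑ a ∈ range (q ^ tt q w J), ∑ b ∈ range (q ^ tt q w J),
        om J ((a + q ^ tt q w J - d₁) % q ^ tt q w J, (b + q ^ tt q w J - d₂) % q ^ tt q w J) =
      S := by
    intro d₁ h₁ d₂ h₂
    rw [← h]
    have e1 := sum_shift (q ^ tt q w J) hP
      (fun a => ∑ b ∈ range (q ^ tt q w J), om J (a, b)) d₁ (Finset.mem_range.mp h₁)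
    rw [← e1]
    refine Finset.sum_congr rfl fun a _ => ?_
    exact sum_shift (q ^ tt q w J) hP
      (fun b => om J ((a + q ^ tt q w J - d₁) % q ^ tt q w J, b)) d₂ (Finset.mem_range.mp h₂)
  unfold omP
  have e : ∀ a b : ℕ, (∑ d₁ ∈ range 2, ∑ d₂ ∈ range 2,
      om J ((a + q ^ tt q w J - d₁) % q ^ tt q w J, (b + q ^ tt q w J - d₂) % q ^ tt q w J)) =
      om J ((a + q ^ tt q w J - 0) % q ^ tt q w J, (b + q ^ tt q w J - 0) % q ^ tt q w J) +
      om J ((a + q ^ tt q w J - 0) % q ^ tt q w J, (b + q ^ tt q w J - 1) % q ^ tt q w J) +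
      (om J ((a + q ^ tt q w J - 1) % q ^ tt q w J, (b + q ^ tt q w J - 0) % q ^ tt q w J) +
      om J ((a + q ^ tt q w J - 1) % q ^ tt q w J, (b + q ^ tt q w J - 1) % q ^ tt q w J)) := by
    intro a b
    simp only [Finset.sum_range_succ, Finset.sum_range_zero, zero_add]
  simp only [e, Finset.sum_add_distrib]
  rw [key 0 (by simp) 0 (by simp), key 0 (by simp) 1 (by simp), key 1 (by simp) 0 (by simp),
    key 1 (by simp) 1 (by simp)]
  ring

/-- mean of the density of `n` blocks -/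
theorem OMF_sum (hK : KERStmt) (hZ : GLZStmt) (q m g t₁ w G Jt : ℕ) (κ : ℝ) (wm : ℕ → ℕ → ℝ)
    (hq : 2 ≤ q) (hm : 1 ≤ m) (hg : 1 ≤ g) (hκ : 0 ≤ κ) (h : MK q m κ wm)
    (ht : ∀ J, w ≤ J → t₁ + g ≤ tt q w J) : ∀ (n J : ℕ), w * n ≤ J →
    ∑ a ∈ range (q ^ tt q (w * n) J), ∑ b ∈ range (q ^ tt q (w * n) J),
      OMF q w (omW q m g t₁ wm w G Jt) J n (a, b) = 9 ^ n * ((q : ℝ) ^ tt q (w * n) J) ^ 2 := by
  intro n
  induction n with
  | zero =>
    intro J _
    have : tt q (w * 0) J = 0 := by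
      unfold tt
      simp
    rw [this]
    simp [OMF]
  | succ n ih =>
    intro J hJ
    have hwJ : w ≤ J := by nlinarith [Nat.zero_le (w * n)]
    have hJ' : w * n ≤ J - w := by
      rw [Nat.mul_succ] at hJ
      omega
    have htt : tt q (w * (n + 1)) J = tt q w J + tt q (w * n) (J - w) := by
      have := (hZ q w J hq hwJ 0 0).2.2.2.2.2.2 (w * n) (by rw [Nat.mul_succ] at hJ; omega)
      rw [Nat.mul_succ, Nat.add_comm (w * n) w]
      exact this
    set r := tt q (w * n) (J - w) with hr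
    set t := tt q w J with ht'
    have hQ : 0 < q ^ r := pow_pos (by omega) _
    have e1 : q ^ tt q (w * (n + 1)) J = q ^ t * q ^ r := by rw [htt, pow_add]
    rw [e1]
    simp only [OMF, ← hr]
    have e2 : ∀ a b : ℕ,
        (1 + 2 * omP q w (omW q m g t₁ wm w G Jt) J (a / q ^ r, b / q ^ r)) *
          OMF q w (omW q m g t₁ wm w G Jt) (J - w) n (a % q ^ r, b % q ^ r) =
        (fun c d => (fun e f => (1 + 2 * omP q w (omW q m g t₁ wm w G Jt) J (c, e)) *
          OMF q w (omW q m g t₁ wm w G Jt) (J - w) n (d, f)) (b / q ^ r) (b % q ^ r))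
          (a / q ^ r) (a % q ^ r) := fun a b => rfl
    have e3 : ∀ a : ℕ, ∑ b ∈ range (q ^ t * q ^ r),
        (1 + 2 * omP q w (omW q m g t₁ wm w G Jt) J (a / q ^ r, b / q ^ r)) *
          OMF q w (omW q m g t₁ wm w G Jt) (J - w) n (a % q ^ r, b % q ^ r) =
        ∑ e ∈ range (q ^ t), ∑ f ∈ range (q ^ r),
          (1 + 2 * omP q w (omW q m g t₁ wm w G Jt) J (a / q ^ r, e)) *
          OMF q w (omW q m g t₁ wm w G Jt) (J - w) n (a % q ^ r, f) := by
      intro a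
      exact sum_divmod (q ^ t) (q ^ r) hQ (fun e f =>
        (1 + 2 * omP q w (omW q m g t₁ wm w G Jt) J (a / q ^ r, e)) *
          OMF q w (omW q m g t₁ wm w G Jt) (J - w) n (a % q ^ r, f))
    rw [Finset.sum_congr rfl fun a _ => e3 a]
    rw [sum_divmod (q ^ t) (q ^ r) hQ (fun c d => ∑ e ∈ range (q ^ t), ∑ f ∈ range (q ^ r),
          (1 + 2 * omP q w (omW q m g t₁ wm w G Jt) J (c, e)) *
          OMF q w (omW q m g t₁ wm w G Jt) (J - w) n (d, f))]
    have e4 : ∀ c d : ℕ, ∑ e ∈ range (q ^ t), ∑ f ∈ range (q ^ r),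
          (1 + 2 * omP q w (omW q m g t₁ wm w G Jt) J (c, e)) *
          OMF q w (omW q m g t₁ wm w G Jt) (J - w) n (d, f) =
        (∑ e ∈ range (q ^ t), (1 + 2 * omP q w (omW q m g t₁ wm w G Jt) J (c, e))) *
        ∑ f ∈ range (q ^ r), OMF q w (omW q m g t₁ wm w G Jt) (J - w) n (d, f) := by
      intro c d
      rw [Finset.sum_mul_sum]
    simp only [e4]
    rw [← Finset.sum_mul_sum, ih (J - w) hJ']
    have e5 : ∑ c ∈ range (q ^ t), ∑ e ∈ range (q ^ t),
        (1 + 2 * omP q w (omW q m g t₁ wm w G Jt) J (c, e)) = 9 * ((q : ℝ) ^ t) ^ 2 := by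
      simp only [Finset.sum_add_distrib, ← Finset.mul_sum]
      rw [omP_sum q w _ J hq _ (omW_sum hK q m g t₁ w G Jt κ wm hq hm hg hκ h J (ht J hwJ))]
      simp only [Finset.sum_const, Finset.card_range, nsmul_eq_mul, mul_one, Nat.cast_pow]
      rw [← ht']
      ring
    rw [e5, htt, pow_add, ← hr]
    ring

/-- the top `t₁` digits are free -/
theorem OMF_top (hK : KERStmt) (hZ : GLZStmt) (q m g t₁ w G Jt : ℕ) (κ : ℝ) (wm : ℕ → ℕ → ℝ)
    (hq : 2 ≤ q) (hm : 1 ≤ m) (hg : 1 ≤ g) (hκ : 0 ≤ κ) (h : MK q m κ wm)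
    (ht : ∀ J, w ≤ J → t₁ + g ≤ tt q w J) (n J : ℕ) (hn : 1 ≤ n) (hJ : w * n ≤ J) (z z' : ℕ × ℕ)
    (hz₁ : z.1 % q ^ (tt q (w * n) J - t₁) = z'.1 % q ^ (tt q (w * n) J - t₁))
    (hz₂ : z.2 % q ^ (tt q (w * n) J - t₁) = z'.2 % q ^ (tt q (w * n) J - t₁)) :
    OMF q w (omW q m g t₁ wm w G Jt) J n z = OMF q w (omW q m g t₁ wm w G Jt) J n z' := by
  obtain ⟨n, rfl⟩ : ∃ n', n = n' + 1 := ⟨n - 1, by omega⟩
  have hwJ : w ≤ J := by nlinarith [Nat.zero_le (w * n)]
  have htt : tt q (w * (n + 1)) J = tt q w J + tt q (w * n) (J - w) := by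
    have := (hZ q w J hq hwJ 0 0).2.2.2.2.2.2 (w * n) (by rw [Nat.mul_succ] at hJ; omega)
    rw [Nat.mul_succ, Nat.add_comm (w * n) w]
    exact this
  have htg := ht J hwJ
  simp only [OMF]
  rw [htt] at hz₁ hz₂
  set r := tt q (w * n) (J - w) with hr
  set t := tt q w J with ht'
  have e0 : t + r - t₁ = r + (t - t₁) := by omega
  have low : ∀ a b : ℕ, a % q ^ (t + r - t₁) = b % q ^ (t + r - t₁) → a % q ^ r = b % q ^ r := by
    intro a b hab
    have hd : q ^ r ∣ q ^ (t + r - t₁) := pow_dvd_pow q (by omega)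
    rw [← Nat.mod_mod_of_dvd a hd, hab, Nat.mod_mod_of_dvd b hd]
  have high : ∀ a b : ℕ, a % q ^ (t + r - t₁) = b % q ^ (t + r - t₁) →
      (a / q ^ r) % q ^ (t - t₁) = (b / q ^ r) % q ^ (t - t₁) := by
    intro a b hab
    rw [e0, pow_add] at hab
    rw [← Nat.mod_mul_right_div_self a (q ^ r) (q ^ (t - t₁)),
      ← Nat.mod_mul_right_div_self b (q ^ r) (q ^ (t - t₁)), hab]
  have hshift : ∀ a b d : ℕ, d < 2 → a % q ^ (t - t₁) = b % q ^ (t - t₁) →
      ((a + q ^ t - d) % q ^ t) % q ^ (t - t₁) = ((b + q ^ t - d) % q ^ t) % q ^ (t - t₁) := by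
    intro a b d hd hab
    have hdv : q ^ (t - t₁) ∣ q ^ t := pow_dvd_pow q (by omega)
    have hpt : 1 ≤ q ^ t := Nat.one_le_pow _ _ (by omega)
    rw [Nat.mod_mod_of_dvd _ hdv, Nat.mod_mod_of_dvd _ hdv]
    have h1 : a + q ^ t - d = a + (q ^ t - d) := by omega
    have h2 : b + q ^ t - d = b + (q ^ t - d) := by omega
    rw [h1, h2]
    exact Nat.ModEq.add_right _ hab
  have homP : omP q w (omW q m g t₁ wm w G Jt) J (z.1 / q ^ r, z.2 / q ^ r) =
      omP q w (omW q m g t₁ wm w G Jt) J (z'.1 / q ^ r, z'.2 / q ^ r) := by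
    unfold omP omW
    by_cases hc : Jt < J + G * w
    · simp only [if_pos hc]
    · simp only [if_neg hc]
      obtain ⟨_, _, _, _, _, h6⟩ := hK q m g t₁ t κ wm hq hm hg htg hκ h
      refine Finset.sum_congr rfl fun d₁ h₁ => Finset.sum_congr rfl fun d₂ h₂ => ?_
      rw [← ht', h6 ((z.1 / q ^ r + q ^ t - d₁) % q ^ t, (z.2 / q ^ r + q ^ t - d₂) % q ^ t),
        h6 ((z'.1 / q ^ r + q ^ t - d₁) % q ^ t, (z'.2 / q ^ r + q ^ t - d₂) % q ^ t)]
      congr 2
      · exact hshift _ _ _ (Finset.mem_range.mp h₁) (high _ _ hz₁)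
      · exact hshift _ _ _ (Finset.mem_range.mp h₂) (high _ _ hz₂)
  rw [homP, low _ _ hz₁, low _ _ hz₂]

theorem OMF_nonneg (q w : ℕ) (om : ℕ → ℕ × ℕ → ℝ) (h : ∀ J z, 0 ≤ om J z) :
    ∀ (n J : ℕ) (z : ℕ × ℕ), 0 ≤ OMF q w om J n z := by
  intro n
  induction n with
  | zero => intro J z; simp [OMF]
  | succ n ih =>
    intro J z
    simp only [OMF]
    refine mul_nonneg ?_ (ih _ _)
    have : 0 ≤ omP q w om J (z.1 / q ^ tt q (w * n) (J - w), z.2 / q ^ tt q (w * n) (J - w)) :=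
      Finset.sum_nonneg fun _ _ => Finset.sum_nonneg fun _ _ => h _ _
    linarith

theorem ex_zero : ex 0 = 1 := by
  unfold ex
  simp

theorem norm_ex (x : ℝ) : ‖ex x‖ = 1 := by
  unfold ex
  rw [Complex.norm_exp]
  simp

theorem c4_le : c4 ≤ 7 := by
  unfold c4
  have h1 : Real.pi < 3.1416 := Real.pi_lt_d4
  have h0 : 0 < Real.pi := Real.pi_pos
  have h2 : Real.pi ^ 2 ≤ 9.87 := by nlinarith
  have h3 : 0 ≤ Real.pi ^ 2 := by positivity
  nlinarith

theorem c4_nonneg : 0 ≤ c4 := by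
  unfold c4
  positivity

theorem phi_zero (r : ℕ) (p : ℕ → ℕ → ℝ) (h : Wt r p) : ‖phi r p 0 0‖ ≤ 1 := by
  unfold phi
  refine le_trans ?_ h.2
  refine le_trans (norm_sum_le _ _) ?_
  refine Finset.sum_le_sum fun n _ => ?_
  refine le_trans (norm_sum_le _ _) ?_
  refine Finset.sum_le_sum fun a _ => ?_
  rw [norm_mul, norm_ex, mul_one, Complex.norm_real, Real.norm_of_nonneg (h.1 n a)]

theorem omh_zero (P : ℕ) (Om : ℕ → ℕ → ℝ) (h : ∀ a b, 0 ≤ Om a b) :
    ‖omh P Om 0 0‖ = c4 * ((∑ a ∈ range P, ∑ b ∈ range P, Om a b) / (P : ℝ) ^ 2) := by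
  unfold omh omd
  simp only [Int.cast_zero, zero_mul, add_zero, zero_div, neg_zero, ex_zero, mul_one, abs_zero,
    sub_zero, Complex.ofReal_one]
  rw [← Complex.ofReal_natCast, ← Complex.ofReal_pow]
  have : (∑ x ∈ range P, ∑ y ∈ range P, (Om x y : ℂ)) =
      ((∑ x ∈ range P, ∑ y ∈ range P, Om x y : ℝ) : ℂ) := by
    push_cast
    rfl
  rw [this, ← Complex.ofReal_div, ← Complex.ofReal_mul, Complex.norm_real, Real.norm_of_nonneg]
  exact mul_nonneg c4_nonneg (div_nonneg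
    (Finset.sum_nonneg fun _ _ => Finset.sum_nonneg fun _ _ => h _ _) (by positivity))

/-- partial sums of the shell bounds -/
theorem shells_le (q t₁ T : ℕ) (hq : 2 ≤ q)
    (h : ∑' i : ℕ, (q : ℝ) ^ (-(5 / 10000 * (t₁ + 1 + i) : ℝ)) ≤ 1) :
    ∑ i ∈ Ioc t₁ T, (q : ℝ) ^ (-(5 / 10000 * i : ℝ)) ≤ 1 := by
  have hq0 : (0 : ℝ) < q := by exact_mod_cast (by omega : 0 < q)
  have hq1 : (1 : ℝ) < q := by exact_mod_cast (by omega : 1 < q)
  set ρ : ℝ := (q : ℝ) ^ (-(5 / 10000) : ℝ) with hρ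
  have hρ0 : 0 ≤ ρ := by positivity
  have hρ1 : ρ < 1 := Real.rpow_lt_one_of_one_lt_of_neg hq1 (by norm_num)
  have hform : ∀ i : ℕ, (q : ℝ) ^ (-(5 / 10000 * (t₁ + 1 + i) : ℝ)) =
      (q : ℝ) ^ (-(5 / 10000 * (t₁ + 1)) : ℝ) * ρ ^ i := by
    intro i
    rw [hρ, ← Real.rpow_natCast, ← Real.rpow_mul hq0.le, ← Real.rpow_add hq0]
    congr 1
    ring
  have hs : Summable fun i : ℕ => (q : ℝ) ^ (-(5 / 10000 * (t₁ + 1 + i) : ℝ)) := by
    simp only [hform]
    exact (summable_geometric_of_lt_one hρ0 hρ1).mul_left _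
  refine le_trans ?_ h
  have h1 := hs.sum_le_tsum (range (T - t₁)) (fun i _ => by positivity)
  refine le_trans (le_of_eq ?_) h1
  refine Finset.sum_nbij' (fun i => i - (t₁ + 1)) (fun i => t₁ + 1 + i) ?_ ?_ ?_ ?_ ?_
  · intro i hi
    simp only [Finset.mem_Ioc] at hi
    simp only [Finset.mem_range]
    omega
  · intro i hi
    simp only [Finset.mem_range] at hi
    simp only [Finset.mem_Ioc]
    omega
  · intro i hi
    simp only [Finset.mem_Ioc] at hi
    omega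
  · intro i _
    simp
  · intro i hi
    simp only [Finset.mem_Ioc] at hi
    have : ((i : ℕ) : ℝ) = (t₁ : ℝ) + 1 + ((i - (t₁ + 1) : ℕ) : ℝ) := by
      rw [Nat.cast_sub (by omega)]
      push_cast
      ring
    rw [this]

end STP67

open STP67

theorem stp (hF : FLAStmt) (hP : GLPStmt) (hZ : GLZStmt) (hK : KERStmt) (hN : NLSStmt)
    (hR : RZDStmt) (hV : VANStmt) : STPStmt := by
  intro q m g t₁ l k G Jt c J Ks wm par hJ hc hJt x hx K hK1 hKs B hB
  have hom := omW_nonneg q m g t₁ (l * k) G Jt kk wm par.hq par.hmk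
  have hkk : (0 : ℝ) ≤ kk := by unfold kk; norm_num
  have hlk : l * (k * c) = l * k * c := (mul_assoc l k c).symm
  set om := omW q m g t₁ wm (l * k) G Jt with hom'
  set r := l * k * c with hr
  set P := q ^ tt q r J with hPdef
  have hPpos : 0 < P := pow_pos (by have := par.hq; omega) _
  set y := yy q (J - r) with hy
  set s₁ := (x.1 : ℝ) * yy q J with hs₁
  set s₂ := (x.2 : ℝ) * yy q J with hs₂
  set Om := OMc q m g t₁ l k G Jt wm c J with hOm
  have hOmv : ∀ a b, Om a b = OMF q (l * k) om J c (a, b) := fun a b => rfl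
  have hOm0 : ∀ a b, 0 ≤ Om a b := fun a b => by
    rw [hOmv]
    exact OMF_nonneg q (l * k) om hom c J _
  have hPc : ((P : ℕ) : ℝ) = (q : ℝ) ^ tt q r J := by rw [hPdef]; push_cast; rfl
  obtain ⟨hWt, hEP⟩ := hP l par.marg (k * c)
  rw [hlk] at hWt hEP
  -- the exceptional set
  have hx1 : ∀ i ∈ Ioc t₁ (tt q r J),
      ‖Rsh q i r (pw l (k * c)) P Om y s₁ s₂‖ ≤ (q : ℝ) ^ (-(5 / 10000 * i : ℝ)) := by
    intro i hi
    by_contra hcon
    exact hx (Or.inl ⟨i, hi, not_le.mp hcon⟩)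
  have hx2 : ∑ κ ∈ bx0 Ks, ‖Rs r (pw l (k * c)) P Om κ y s₁ s₂‖ ^ 2 ≤
      (2 : ℝ) ^ (-(1 / 1000 * (l * k * c) : ℝ)) := by
    by_contra hcon
    exact hx (Or.inr (not_le.mp hcon))
  -- flattening
  have h1 := hF q l k eb om par.hq par.marg hom c J hJ (fun y' =>
    if (ix K (y'.1 * yy q (J - l * k * c)), ix K (y'.2 * yy q (J - l * k * c))) ∈ B then 1 else 0)
    (fun y' => by split_ifs <;> norm_num) x
  refine le_trans h1 ?_
  rw [hEP]
  -- the sum over naturals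
  have h2 := hN r (pw l (k * c)) hWt P hPpos Om hOm0 K hK1 B hB y s₁ s₂
  have h3 : (∑ n ∈ range (2 ^ r), ∑ a ∈ range (2 ^ r), pw l (k * c) n a *
      (OMF q (l * k) om J c (zz q r J (2 ^ r * x.1 + n, 2 ^ r * x.2 + a)) *
        (if (ix K (((2 ^ r * x.1 + n : ℕ) : ℝ) * y), ix K (((2 ^ r * x.2 + a : ℕ) : ℝ) * y)) ∈ B
          then (1 : ℝ) else 0))) =
      ∑ n ∈ range (2 ^ r), ∑ a ∈ range (2 ^ r),
        if (ix K (P * s₁ + y * n), ix K (P * s₂ + y * a)) ∈ B then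
          pw l (k * c) n a * Om (fl P (P * s₁ + y * n)) (fl P (P * s₂ + y * a)) else 0 := by
    refine Finset.sum_congr rfl fun n _ => Finset.sum_congr rfl fun a _ => ?_
    obtain ⟨f1, f2, _⟩ := hZ q r J par.hq hJ x.1 n
    obtain ⟨g1, g2, _⟩ := hZ q r J par.hq hJ x.2 a
    rw [← hPc] at f1 f2 g1 g2
    have e1 : ((2 ^ r * x.1 + n : ℕ) : ℝ) * y = P * s₁ + y * n := f1.symm
    have e2 : ((2 ^ r * x.2 + a : ℕ) : ℝ) * y = P * s₂ + y * a := g1.symm
    have e3 : zz q r J (2 ^ r * x.1 + n, 2 ^ r * x.2 + a) =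
        (fl P (P * s₁ + y * n), fl P (P * s₂ + y * a)) := by
      unfold zz
      exact Prod.ext f2 g2
    rw [e1, e2, e3, hOmv]
    split_ifs <;> ring
  have h4 : (∑ n ∈ range (2 ^ r), ∑ a ∈ range (2 ^ r), pw l (k * c) n a *
      (OMF q (l * k) om J c (zz q r J (2 ^ r * x.1 + n, 2 ^ r * x.2 + a)) *
        (if (ix K (((2 ^ r * x.1 + n : ℕ) : ℝ) * y), ix K (((2 ^ r * x.2 + a : ℕ) : ℝ) * y)) ∈ B
          then (1 : ℝ) else 0))) ≤
      7 * ((B.card : ℝ) / (K : ℝ) ^ 2) * ‖Rs r (pw l (k * c)) P Om 0 y s₁ s₂‖ +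
      13 * Real.sqrt ((B.card : ℝ) / (K : ℝ) ^ 2) *
        Real.sqrt (∑ κ ∈ bx0 K, ‖Rs r (pw l (k * c)) P Om κ y s₁ s₂‖ ^ 2) := by
    rw [h3]
    exact h2
  refine le_trans h4 ?_
  -- the constant term
  have h5 : ‖Rs r (pw l (k * c)) P Om 0 y s₁ s₂‖ ≤ C1 c := by
    have e := hR q (tt q r J) r par.hq (pw l (k * c)) Om y s₁ s₂
    rw [← hPdef] at e
    rw [e]
    have hvan : ∀ i ∈ Icc 1 (tt q r J), i ≤ t₁ →
        Rsh q i r (pw l (k * c)) P Om y s₁ s₂ = 0 := by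
      intro i hi hit
      unfold Rsh
      refine Finset.sum_eq_zero fun m' hm' => ?_
      have htl : t₁ ≤ tt q r J := by
        have hlkJ : l * k ≤ J := le_trans (Nat.le_mul_of_pos_right _ (by omega)) hJ
        have a1 := par.ht J hlkJ
        have a2 := (hZ q (l * k) J par.hq hlkJ 0 0).2.2.2.2.2.2 (l * k * (c - 1)) (by
          have : l * k + l * k * (c - 1) = r := by
            rw [hr]
            obtain ⟨c', rfl⟩ : ∃ c', c = c' + 1 := ⟨c - 1, by omega⟩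
            simp only [Nat.add_sub_cancel]
            ring
          omega)
        have a3 : l * k + l * k * (c - 1) = r := by
          rw [hr]
          obtain ⟨c', rfl⟩ : ∃ c', c = c' + 1 := ⟨c - 1, by omega⟩
          simp only [Nat.add_sub_cancel]
          ring
        rw [a3] at a2
        omega
      have hv := hV q (tt q r J) t₁ i r par.hq htl hit (pw l (k * c)) Om y (by
        intro z1 _ z2 _
        have hmod : ∀ z : ℕ, ((z + q ^ (tt q r J - t₁)) % q ^ tt q r J) % q ^ (tt q r J - t₁) =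
            z % q ^ (tt q r J - t₁) := by
          intro z
          have hd : q ^ (tt q r J - t₁) ∣ q ^ tt q r J := pow_dvd_pow q (by omega)
          rw [Nat.mod_mod_of_dvd _ hd, Nat.add_mod_right]
        constructor
        · rw [hOmv, hOmv]
          exact OMF_top hK hZ q m g t₁ (l * k) G Jt kk wm par.hq par.hm par.hg hkk par.hmk
            par.ht c J hc hJ _ _ (hmod z1) rfl
        · rw [hOmv, hOmv]
          exact OMF_top hK hZ q m g t₁ (l * k) G Jt kk wm par.hq par.hm par.hg hkk par.hmk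
            par.ht c J hc hJ _ _ rfl (hmod z2)) m' hm'
      rw [hv, zero_mul]
    have hsh : ‖∑ i ∈ Icc 1 (tt q r J), Rsh q i r (pw l (k * c)) P Om y s₁ s₂‖ ≤ 1 := by
      refine le_trans ?_ (shells_le q t₁ (tt q r J) par.hq par.shells)
      have e2 : ∑ i ∈ Icc 1 (tt q r J), Rsh q i r (pw l (k * c)) P Om y s₁ s₂ =
          ∑ i ∈ Ioc t₁ (tt q r J), Rsh q i r (pw l (k * c)) P Om y s₁ s₂ := by
        symm
        refine Finset.sum_subset ?_ ?_
        · intro i hi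
          simp only [Finset.mem_Ioc] at hi
          simp only [Finset.mem_Icc]
          omega
        · intro i hi hni
          refine hvan i hi ?_
          simp only [Finset.mem_Icc] at hi
          simp only [Finset.mem_Ioc, not_and] at hni
          by_contra hcon
          exact hni (by omega) hi.2
      rw [e2]
      refine le_trans (norm_sum_le _ _) ?_
      exact Finset.sum_le_sum fun i hi => hx1 i hi
    have h0 : ‖omh P Om 0 0‖ ≤ 7 * 9 ^ c := by
      rw [omh_zero P Om hOm0]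
      have hs : ∑ a ∈ range P, ∑ b ∈ range P, Om a b = 9 ^ c * (P : ℝ) ^ 2 := by
        have := OMF_sum hK hZ q m g t₁ (l * k) G Jt kk wm par.hq par.hm par.hg hkk par.hmk
          par.ht c J hJ
        rw [hPc]
        exact this
      rw [hs, mul_div_assoc, div_self (by positivity), mul_one]
      exact mul_le_mul_of_nonneg_right c4_le (by positivity)
    unfold C1
    refine le_trans (norm_add_le _ _) ?_
    rw [norm_mul]
    have hph := phi_zero r (pw l (k * c)) hWt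
    have : ‖omh P Om 0 0‖ * ‖phi r (pw l (k * c)) 0 0‖ ≤ 7 * 9 ^ c * 1 :=
      mul_le_mul h0 hph (norm_nonneg _) (by positivity)
    linarith
  -- the high frequencies
  have h6 : Real.sqrt (∑ κ ∈ bx0 K, ‖Rs r (pw l (k * c)) P Om κ y s₁ s₂‖ ^ 2) ≤
      (2 : ℝ) ^ (-(1 / 2000 * (l * k * c) : ℝ)) := by
    rw [Real.sqrt_le_left (by positivity)]
    have hsub : bx0 K ⊆ bx0 Ks := by
      intro z hz
      unfold bx0 bx at *
      simp only [Finset.mem_filter, Finset.mem_product, Finset.mem_Ioo] at hz ⊢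
      have : (K : ℤ) ≤ Ks := by exact_mod_cast hKs
      refine ⟨⟨⟨?_, ?_⟩, ⟨?_, ?_⟩⟩, hz.2⟩ <;> omega
    refine le_trans (Finset.sum_le_sum_of_subset_of_nonneg hsub
      (fun _ _ _ => by positivity)) ?_
    refine le_trans hx2 (le_of_eq ?_)
    rw [← Real.rpow_natCast, ← Real.rpow_mul (by norm_num)]
    congr 1
    push_cast
    ring
  have hB0 : 0 ≤ (B.card : ℝ) / (K : ℝ) ^ 2 := by positivity
  have i1 : 7 * ((B.card : ℝ) / (K : ℝ) ^ 2) * ‖Rs r (pw l (k * c)) P Om 0 y s₁ s₂‖ ≤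
      7 * C1 c * ((B.card : ℝ) / (K : ℝ) ^ 2) := by
    have := mul_le_mul_of_nonneg_left h5 (by positivity : 0 ≤ 7 * ((B.card : ℝ) / (K : ℝ) ^ 2))
    linarith
  have i2 : 13 * Real.sqrt ((B.card : ℝ) / (K : ℝ) ^ 2) *
        Real.sqrt (∑ κ ∈ bx0 K, ‖Rs r (pw l (k * c)) P Om κ y s₁ s₂‖ ^ 2) ≤
      13 * Real.sqrt ((B.card : ℝ) / (K : ℝ) ^ 2) * (2 : ℝ) ^ (-(1 / 2000 * (l * k * c) : ℝ)) :=
    mul_le_mul_of_nonneg_left h6 (by positivity)
  exact add_le_add i1 i2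

end Pool.Agent.H24.FD
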